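import Mathlib

/-!
# The local recursion on intersection graphs

For a finite graph with weights `I x y` in `ZMod 2` that is built from isolated vertices,
pendant vertices and twins, the weighted Laplace equation
`∑ y, I x y * v y * (ψ x + ψ y) = b (v x) (lam x)` has a polynomial solution `ψ`.
-/

namespace Pool.Agent.H38.KZ

open MvPolynomial Finset

noncomputable section

/-- `b(s,t) = s t^4 + s^3 t^2`; additive in `t` in characteristic two. -/
def bb {A : Type*} [CommRing A] (s t : A) : A := s * t ^ 4 + s ^ 3 * t ^ 2

/-- `f(s,t) = s t^3 + s^3 t`. -/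
def ff {A : Type*} [CommRing A] (s t : A) : A := s * t ^ 3 + s ^ 3 * t

section basic

variable {A B : Type*} [CommRing A] [CommRing B]

theorem map_bb (φ : A →+* B) (s t : A) : φ (bb s t) = bb (φ s) (φ t) := by
  simp [bb]

theorem map_ff (φ : A →+* B) (s t : A) : φ (ff s t) = ff (φ s) (φ t) := by
  simp [ff]

theorem bb_zero_right (s : A) : bb s 0 = 0 := by simp [bb]
theorem bb_zero_left (t : A) : bb 0 t = 0 := by simp [bb]
theorem ff_zero_left (t : A) : ff 0 t = 0 := by simp [ff]
theorem ff_zero_right (t : A) : ff t 0 = 0 := by simp [ff]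

theorem mul_ff_right (s t : A) : t * ff s t = bb s t := by simp only [bb, ff]; ring
theorem mul_ff_left (s t : A) : s * ff s t = bb t s := by simp only [bb, ff]; ring

theorem bb_add_right (h2 : (2 : A) = 0) (s t u : A) : bb s (t + u) = bb s t + bb s u := by
  simp only [bb]
  linear_combination (s * (2 * t ^ 3 * u + 3 * t ^ 2 * u ^ 2 + 2 * t * u ^ 3) + s ^ 3 * t * u) * h2

theorem bb_self (h2 : (2 : A) = 0) (s : A) : bb s s = 0 := by
  simp only [bb]
  linear_combination s ^ 5 * h2

theorem bb_sum_right (h2 : (2 : A) = 0) {ι : Type*} (T : Finset ι) (s : A) (t : ι → A) :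
    bb s (∑ i ∈ T, t i) = ∑ i ∈ T, bb s (t i) := by
  classical
  induction T using Finset.induction_on with
  | empty => simp [bb_zero_right]
  | insert a T ha ih => rw [sum_insert ha, sum_insert ha, bb_add_right h2, ih]

end basic

theorem zmod_two_cases (a : ZMod 2) : a = 0 ∨ a = 1 := by
  revert a; decide

theorem two_eq_zero {σ : Type*} : (2 : MvPolynomial σ (ZMod 2)) = 0 := by
  have h : ((2 : ℕ) : MvPolynomial σ (ZMod 2)) = 0 := CharP.cast_eq_zero _ 2
  exact_mod_cast h

variable {σ : Type*}

/-- The sum of the variables over the neighbours of `x` in `S`. -/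
def lam (I : σ → σ → ZMod 2) (S : Finset σ) (x : σ) : MvPolynomial σ (ZMod 2) :=
  ∑ y ∈ S, C (I x y) * X y

/-- The defining property of a local solution. -/
structure IsSol (I : σ → σ → ZMod 2) (t : σ) (S : Finset σ)
    (ψ : σ → MvPolynomial σ (ZMod 2)) : Prop where
  hom : ∀ x, (ψ x).IsHomogeneous 4
  eqn : ∀ x ∈ S, ∑ y ∈ S, C (I x y) * X y * (ψ x + ψ y) = bb (X x) (lam I S x)
  root : ψ t = ff (lam I S t) (X t)

theorem isHomogeneous_ff {a b : MvPolynomial σ (ZMod 2)} (ha : a.IsHomogeneous 1)
    (hb : b.IsHomogeneous 1) : (ff a b).IsHomogeneous 4 := by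
  unfold ff
  have h1 : (a * b ^ 3).IsHomogeneous (1 + 1 * 3) := ha.mul (hb.pow 3)
  have h2 : (a ^ 3 * b).IsHomogeneous (1 * 3 + 1) := (ha.pow 3).mul hb
  exact h1.add h2

/-- Adding a vertex `x` whose only possible neighbour is `y ≠ t`. -/
theorem isSol_pendant [DecidableEq σ] {I : σ → σ → ZMod 2} (hsymm : ∀ x y, I x y = I y x)
    (hdiag : ∀ x, I x x = 0) {t x y : σ} {S : Finset σ} (ht : t ∈ S) (hx : x ∈ S) (hy : y ∈ S)
    (hxt : x ≠ t) (hyt : y ≠ t) (hxy : x ≠ y)
    (hp : ∀ z ∈ S, z ≠ x → z ≠ y → I x z = 0)
    {ψ : σ → MvPolynomial σ (ZMod 2)} (hψ : IsSol I t (S.erase x) ψ) :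
    IsSol I t S (fun z => if z = x then ψ y + ff (X x) (X y) else ψ z) := by
  have h2 : (2 : MvPolynomial σ (ZMod 2)) = 0 := two_eq_zero
  have hyE : y ∈ S.erase x := mem_erase.2 ⟨hxy.symm, hy⟩
  have hlam : ∀ z ∈ S, z ≠ x → z ≠ y → lam I S z = lam I (S.erase x) z := by
    intro z hz hzx hzy
    unfold lam
    rw [← add_sum_erase S _ hx, hsymm z x, hp z hz hzx hzy]
    simp
  refine ⟨?_, ?_, ?_⟩
  · intro z
    by_cases hz : z = x
    · simp only [hz, if_true]
      exact (hψ.hom y).add (isHomogeneous_ff (isHomogeneous_X _ _) (isHomogeneous_X _ _))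
    · simp only [hz, if_false]
      exact hψ.hom z
  · intro z hz
    rw [← add_sum_erase S _ hx]
    by_cases hzx : z = x
    · subst hzx
      rw [← add_sum_erase (S.erase z) _ hyE]
      have h0 : ∑ w ∈ (S.erase z).erase y, C (I z w) * X w *
          ((if z = z then ψ y + ff (X z) (X y) else ψ z) +
            if w = z then ψ y + ff (X z) (X y) else ψ w) = 0 := by
        apply sum_eq_zero
        intro w hw
        rw [mem_erase, mem_erase] at hw
        rw [hp w hw.2.2 hw.2.1 hw.1]
        simp
      have h1 : lam I S z = C (I z y) * X y := by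
        unfold lam
        rw [← add_sum_erase S _ hx, ← add_sum_erase (S.erase z) _ hyE, hdiag]
        have : ∑ w ∈ (S.erase z).erase y, C (I z w) * (X w : MvPolynomial σ (ZMod 2)) = 0 := by
          apply sum_eq_zero
          intro w hw
          rw [mem_erase, mem_erase] at hw
          rw [hp w hw.2.2 hw.2.1 hw.1]
          simp
        rw [this]
        simp
      rw [h0, h1, hdiag]
      simp only [if_true, hxy.symm, if_false, map_zero, zero_mul, zero_add, add_zero]
      rcases zmod_two_cases (I z y) with h | h
      · simp [h, bb_zero_right]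
      · rw [h]
        simp only [map_one, one_mul]
        have := mul_ff_right (X z : MvPolynomial σ (ZMod 2)) (X y)
        linear_combination this + X y * ψ y * h2
    · by_cases hzy : z = y
      · subst hzy
        have hrest : ∑ w ∈ S.erase x, C (I z w) * X w *
          ((if z = x then ψ z + ff (X x) (X z) else ψ z) +
            if w = x then ψ z + ff (X x) (X z) else ψ w) =
            ∑ w ∈ S.erase x, C (I z w) * X w * (ψ z + ψ w) := by
          apply sum_congr rfl
          intro w hw
          rw [mem_erase] at hw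
          simp [hzx, hw.1]
        have hl : lam I S z = C (I z x) * X x + lam I (S.erase x) z := by
          unfold lam
          rw [← add_sum_erase S _ hx]
        rw [hrest, hψ.eqn z hyE, hl, bb_add_right h2]
        simp only [hzx, if_false, if_true]
        rcases zmod_two_cases (I z x) with h | h
        · simp [h, bb_zero_right]
        · rw [h]
          simp only [map_one, one_mul]
          have := mul_ff_left (X x : MvPolynomial σ (ZMod 2)) (X z)
          linear_combination this + X x * ψ z * h2
      · rw [hsymm z x, hp z hz hzx hzy, hlam z hz hzx hzy, ← hψ.eqn z (mem_erase.2 ⟨hzx, hz⟩)]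
        simp only [map_zero, zero_mul, zero_add]
        apply sum_congr rfl
        intro w hw
        rw [mem_erase] at hw
        simp [hzx, hw.1]
  · simp only [hxt.symm, if_false]
    rw [hψ.root, hlam t ht hxt.symm hyt.symm]

/-- The correction term for twins. -/
def kap (e : ZMod 2) (μ s t : MvPolynomial σ (ZMod 2)) : MvPolynomial σ (ZMod 2) :=
  (μ + C e * (s + t)) * (μ ^ 2 + s * t) + C (1 + e) * (μ * (s + t) ^ 2)

theorem kap_comm (e : ZMod 2) (μ s t : MvPolynomial σ (ZMod 2)) : kap e μ s t = kap e μ t s := by
  unfold kap; ring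

/-- The key identity for twins. -/
theorem kap_eq (e : ZMod 2) (μ s t : MvPolynomial σ (ZMod 2)) :
    bb (s + t) μ + t * kap e μ s t * (μ + C e * (s + t)) = bb s (μ + C e * t) := by
  have h2 : (2 : MvPolynomial σ (ZMod 2)) = 0 := two_eq_zero
  rcases zmod_two_cases e with h | h
  · subst h
    simp only [kap, bb, map_zero, zero_mul, add_zero, map_one, one_mul]
    linear_combination (t * μ ^ 4 + t ^ 3 * μ ^ 2 + 3 * s * t ^ 2 * μ ^ 2 +
      2 * s ^ 2 * t * μ ^ 2) * h2
  · subst h
    have h11 : (1 + 1 : ZMod 2) = 0 := by decide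
    simp only [kap, bb, map_one, one_mul, h11, map_zero, zero_mul, add_zero]
    linear_combination (t * μ ^ 4 + t ^ 2 * μ ^ 3 + t ^ 3 * μ ^ 2 - s * t * μ ^ 3 -
      s * t ^ 3 * μ + 2 * s ^ 2 * t * μ ^ 2 + s ^ 2 * t ^ 2 * μ + s ^ 2 * t ^ 3 -
      s ^ 3 * t * μ) * h2

/-- The sum of the variables over the neighbours of `y` in `S` other than `x` and `y`. -/
def mu [DecidableEq σ] (I : σ → σ → ZMod 2) (S : Finset σ) (x y : σ) :
    MvPolynomial σ (ZMod 2) :=
  ∑ w ∈ (S.erase x).erase y, C (I y w) * X w

theorem isHomogeneous_lin (T : Finset σ) (c : σ → ZMod 2) :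
    (∑ w ∈ T, C (c w) * X w : MvPolynomial σ (ZMod 2)).IsHomogeneous 1 := by
  apply IsHomogeneous.sum
  intro w _
  exact isHomogeneous_C_mul_X _ _

theorem isHomogeneous_kap {e : ZMod 2} {a s t : MvPolynomial σ (ZMod 2)}
    (ha : a.IsHomogeneous 1) (hs : s.IsHomogeneous 1) (ht : t.IsHomogeneous 1) :
    (kap e a s t).IsHomogeneous 3 := by
  unfold kap
  have h1 : (a + C e * (s + t)).IsHomogeneous 1 := ha.add ((hs.add ht).C_mul e)
  have h2 : (a ^ 2 + s * t).IsHomogeneous 2 := (ha.pow 2).add (hs.mul ht)
  have h3 : (a * (s + t) ^ 2).IsHomogeneous 3 := ha.mul ((hs.add ht).pow 2)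
  exact (h1.mul h2).add (h3.C_mul _)

/-- The substitution merging the twins `x` and `y`. -/
def sub [DecidableEq σ] (x y : σ) : MvPolynomial σ (ZMod 2) →ₐ[ZMod 2] MvPolynomial σ (ZMod 2) :=
  aeval (fun z => if z = y then X x + X y else X z)

theorem sub_C [DecidableEq σ] (x y : σ) (a : ZMod 2) : sub x y (C a) = C a := by
  simp [sub]

theorem sub_X_self [DecidableEq σ] (x y : σ) : sub x y (X y) = X x + X y := by
  simp [sub]

theorem sub_X_of_ne [DecidableEq σ] {x y z : σ} (h : z ≠ y) : sub x y (X z) = X z := by
  simp [sub, h]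

theorem isHomogeneous_sub [DecidableEq σ] (x y : σ) {p : MvPolynomial σ (ZMod 2)} {n : ℕ}
    (hp : p.IsHomogeneous n) : (sub x y p).IsHomogeneous n := by
  have := hp.aeval (fun z => if z = y then X x + X y else (X z : MvPolynomial σ (ZMod 2)))
    (n := 1) (fun z => by
      by_cases hz : z = y
      · simp only [hz, if_true]
        exact (isHomogeneous_X _ _).add (isHomogeneous_X _ _)
      · simp only [hz, if_false]
        exact isHomogeneous_X _ _)
  simpa [sub] using this

/-- Adding a twin `x` of the vertex `y`. -/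
theorem isSol_twin [DecidableEq σ] {I : σ → σ → ZMod 2} (hsymm : ∀ x y, I x y = I y x)
    (hdiag : ∀ x, I x x = 0) {t x y : σ} {S : Finset σ} (ht : t ∈ S) (hx : x ∈ S) (hy : y ∈ S)
    (hxt : x ≠ t) (hyt : y ≠ t) (hxy : x ≠ y)
    (hp : ∀ z ∈ S, z ≠ x → z ≠ y → I x z = I y z)
    {ψ : σ → MvPolynomial σ (ZMod 2)} (hψ : IsSol I t (S.erase x) ψ) :
    IsSol I t S (fun z => if z = x then sub x y (ψ y) +
        X y * kap (I x y) (mu I S x y) (X x) (X y)
      else if z = y then sub x y (ψ y) + X x * kap (I x y) (mu I S x y) (X x) (X y)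
      else sub x y (ψ z)) := by
  have h2 : (2 : MvPolynomial σ (ZMod 2)) = 0 := two_eq_zero
  have hyE : y ∈ S.erase x := mem_erase.2 ⟨hxy.symm, hy⟩
  set κ := kap (I x y) (mu I S x y) (X x) (X y) with hκ
  -- the sums over the neighbours
  have hlam : ∀ z ∈ S, z ≠ x → z ≠ y → lam I S z = sub x y (lam I (S.erase x) z) := by
    intro z hz hzx hzy
    unfold lam
    rw [← add_sum_erase S _ hx, ← add_sum_erase (S.erase x) _ hyE, map_add, map_mul, map_sum,
      sub_X_self, sub_C, hsymm z x, hp z hz hzx hzy, hsymm z y]
    have : ∑ w ∈ (S.erase x).erase y, sub x y (C (I z w) * X w) =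
        ∑ w ∈ (S.erase x).erase y, C (I z w) * (X w : MvPolynomial σ (ZMod 2)) := by
      apply sum_congr rfl
      intro w hw
      rw [mem_erase] at hw
      rw [map_mul, sub_C, sub_X_of_ne hw.1]
    rw [this]
    ring
  have hlamy : lam I S y = mu I S x y + C (I x y) * X x := by
    unfold lam mu
    rw [← add_sum_erase S _ hx, ← add_sum_erase (S.erase x) _ hyE, hdiag, hsymm y x]
    simp only [map_zero, zero_mul, zero_add]
    ring
  have hlamx : lam I S x = mu I S x y + C (I x y) * X y := by
    unfold lam mu
    rw [← add_sum_erase S _ hx, ← add_sum_erase (S.erase x) _ hyE, hdiag]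
    have : ∑ w ∈ (S.erase x).erase y, C (I x w) * (X w : MvPolynomial σ (ZMod 2)) =
        ∑ w ∈ (S.erase x).erase y, C (I y w) * (X w : MvPolynomial σ (ZMod 2)) := by
      apply sum_congr rfl
      intro w hw
      rw [mem_erase, mem_erase] at hw
      rw [hp w hw.2.2 hw.2.1 hw.1]
    rw [this]
    simp only [map_zero, zero_mul, zero_add]
    ring
  have hlamy' : sub x y (lam I (S.erase x) y) = mu I S x y := by
    unfold lam mu
    rw [← add_sum_erase (S.erase x) _ hyE, hdiag]
    simp only [map_zero, zero_mul, zero_add, map_sum]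
    apply sum_congr rfl
    intro w hw
    rw [mem_erase] at hw
    rw [map_mul, sub_C, sub_X_of_ne hw.1]
  -- the equation of `y` before the substitution
  have hE : ∑ w ∈ (S.erase x).erase y, C (I y w) * X w * (sub x y (ψ y) + sub x y (ψ w)) =
      bb (X x + X y) (mu I S x y) := by
    have h := congrArg (sub x y) (hψ.eqn y hyE)
    rw [← add_sum_erase (S.erase x) _ hyE, hdiag] at h
    simp only [map_zero, zero_mul, zero_add, map_sum] at h
    have h3 : sub x y (bb (X y) (lam I (S.erase x) y)) = bb (X x + X y) (mu I S x y) := by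
      have := map_bb (sub x y : MvPolynomial σ (ZMod 2) →+* MvPolynomial σ (ZMod 2))
        (X y) (lam I (S.erase x) y)
      simp only [RingHom.coe_coe] at this
      rw [this, sub_X_self, hlamy']
    rw [h3] at h
    rw [← h]
    apply sum_congr rfl
    intro w hw
    rw [mem_erase] at hw
    rw [map_mul, map_mul, map_add, sub_C, sub_X_of_ne hw.1]
  refine ⟨?_, ?_, ?_⟩
  · intro z
    have hμ : (mu I S x y).IsHomogeneous 1 := isHomogeneous_lin _ _
    have hκh : κ.IsHomogeneous 3 :=
      isHomogeneous_kap hμ (isHomogeneous_X _ _) (isHomogeneous_X _ _)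
    by_cases hz : z = x
    · simp only [hz, if_true]
      exact (isHomogeneous_sub _ _ (hψ.hom y)).add ((isHomogeneous_X _ _).mul hκh)
    · by_cases hz' : z = y
      · subst hz'
        simp only [hz, if_false, if_true]
        exact (isHomogeneous_sub _ _ (hψ.hom z)).add ((isHomogeneous_X _ _).mul hκh)
      · simp only [hz, hz', if_false]
        exact isHomogeneous_sub _ _ (hψ.hom z)
  · intro z hz
    rw [← add_sum_erase S _ hx, ← add_sum_erase (S.erase x) _ hyE]
    by_cases hzx : z = x
    · subst hzx
      have hrest : ∑ w ∈ (S.erase z).erase y, C (I z w) * X w *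
          ((if z = z then sub z y (ψ y) + X y * κ
            else if z = y then sub z y (ψ y) + X z * κ else sub z y (ψ z)) +
            (if w = z then sub z y (ψ y) + X y * κ
            else if w = y then sub z y (ψ y) + X z * κ else sub z y (ψ w))) =
          bb (X z + X y) (mu I S z y) + mu I S z y * (X y * κ) := by
        rw [← hE, mu, sum_mul, ← sum_add_distrib]
        apply sum_congr rfl
        intro w hw
        rw [mem_erase, mem_erase] at hw
        rw [hp w hw.2.2 hw.2.1 hw.1]
        simp only [if_true, hw.1, hw.2.1, if_false]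
        ring
      rw [hrest, hlamx, hdiag]
      simp only [if_true, hxy.symm, if_false, map_zero, zero_mul, zero_add]
      have hk := kap_eq (I z y) (mu I S z y) (X z) (X y)
      rw [← hκ] at hk
      linear_combination hk + C (I z y) * X y * sub z y (ψ y) * h2
    · by_cases hzy : z = y
      · subst hzy
        have hrest : ∑ w ∈ (S.erase x).erase z, C (I z w) * X w *
          ((if z = x then sub x z (ψ z) + X z * κ
            else if z = z then sub x z (ψ z) + X x * κ else sub x z (ψ z)) +
            (if w = x then sub x z (ψ z) + X z * κ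
            else if w = z then sub x z (ψ z) + X x * κ else sub x z (ψ w))) =
          bb (X x + X z) (mu I S x z) + mu I S x z * (X x * κ) := by
          rw [← hE, mu, sum_mul, ← sum_add_distrib]
          apply sum_congr rfl
          intro w hw
          rw [mem_erase, mem_erase] at hw
          simp only [if_true, hw.1, hw.2.1, if_false, hzx]
          ring
        rw [hrest, hlamy, hdiag, hsymm z x]
        simp only [if_true, hzx, if_false, map_zero, zero_mul, zero_add]
        have hk := kap_eq (I x z) (mu I S x z) (X z) (X x)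
        rw [kap_comm, ← hκ] at hk
        have h4 : bb (X x + X z) (mu I S x z) = bb (X z + X x) (mu I S x z) := by
          rw [add_comm]
        rw [h4]
        linear_combination hk + C (I x z) * X x * sub x z (ψ z) * h2
      · have hzE : z ∈ S.erase x := mem_erase.2 ⟨hzx, hz⟩
        have h := congrArg (sub x y) (hψ.eqn z hzE)
        rw [← add_sum_erase (S.erase x) _ hyE] at h
        simp only [map_sum, map_add] at h
        have h3 : sub x y (bb (X z) (lam I (S.erase x) z)) = bb (X z) (lam I S z) := by
          have := map_bb (sub x y : MvPolynomial σ (ZMod 2) →+* MvPolynomial σ (ZMod 2))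
            (X z) (lam I (S.erase x) z)
          simp only [RingHom.coe_coe] at this
          rw [this, sub_X_of_ne hzy, ← hlam z hz hzx hzy]
        rw [h3] at h
        rw [← h]
        have hrest : ∑ w ∈ (S.erase x).erase y, C (I z w) * X w *
          ((if z = x then sub x y (ψ y) + X y * κ
            else if z = y then sub x y (ψ y) + X x * κ else sub x y (ψ z)) +
            (if w = x then sub x y (ψ y) + X y * κ
            else if w = y then sub x y (ψ y) + X x * κ else sub x y (ψ w))) =
          ∑ w ∈ (S.erase x).erase y, sub x y (C (I z w) * X w * (ψ z + ψ w)) := by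
          apply sum_congr rfl
          intro w hw
          rw [mem_erase, mem_erase] at hw
          rw [map_mul, map_mul, map_add, sub_C, sub_X_of_ne hw.1]
          simp only [hzx, hzy, hw.1, hw.2.1, if_false]
        rw [hrest]
        simp only [hzx, hzy, if_true, if_false, hxy.symm]
        rw [map_mul, map_mul, map_add, sub_C, sub_X_self, hsymm z x, hp z hz hzx hzy, hsymm z y]
        linear_combination (C (I y z) * X x * X y * κ) * h2
  · simp only [hxt.symm, hyt.symm, if_false]
    have := map_ff (sub x y : MvPolynomial σ (ZMod 2) →+* MvPolynomial σ (ZMod 2))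
      (lam I (S.erase x) t) (X t)
    simp only [RingHom.coe_coe] at this
    rw [hψ.root, this, ← hlam t ht hxt.symm hyt.symm, sub_X_of_ne hyt.symm]

/-- The reducibility condition on the graph on `S` with root `t`. -/
def Reducible (I : σ → σ → ZMod 2) (t : σ) (S : Finset σ) : Prop :=
  ∀ T ⊆ S, t ∈ T → 3 ≤ T.card → ∃ x ∈ T, ∃ y ∈ T, x ≠ t ∧ y ≠ t ∧ x ≠ y ∧
    ((∀ z ∈ T, z ≠ x → z ≠ y → I x z = I y z) ∨ (∀ z ∈ T, z ≠ x → z ≠ y → I x z = 0))

/-- Solutions exist for reducible graphs. -/
theorem exists_isSol {I : σ → σ → ZMod 2} (hsymm : ∀ x y, I x y = I y x)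
    (hdiag : ∀ x, I x x = 0) {t : σ} {S : Finset σ} (ht : t ∈ S) (hred : Reducible I t S) :
    ∃ ψ, IsSol I t S ψ := by
  classical
  have h2 : (2 : MvPolynomial σ (ZMod 2)) = 0 := two_eq_zero
  suffices H : ∀ n : ℕ, ∀ T ⊆ S, t ∈ T → T.card = n → ∃ ψ, IsSol I t T ψ from
    H _ S (Finset.Subset.refl _) ht rfl
  intro n
  induction n using Nat.strong_induction_on with
  | _ n ih =>
  intro T hT htT hc
  by_cases h3 : 3 ≤ T.card
  · obtain ⟨x, hx, y, hy, hxt, hyt, hxy, h⟩ := hred T hT htT h3
    have hlt : (T.erase x).card < n := by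
      rw [← hc]; exact card_erase_lt_of_mem hx
    obtain ⟨ψ, hψ⟩ := ih _ hlt (T.erase x) ((erase_subset _ _).trans hT)
      (mem_erase.2 ⟨hxt.symm, htT⟩) rfl
    rcases h with h | h
    · exact ⟨_, isSol_twin hsymm hdiag htT hx hy hxt hyt hxy h hψ⟩
    · exact ⟨_, isSol_pendant hsymm hdiag htT hx hy hxt hyt hxy h hψ⟩
  · by_cases h1 : T.card = 1
    · obtain ⟨a, ha⟩ := card_eq_one.1 h1
      have hta : t = a := by rw [ha] at htT; exact mem_singleton.1 htT
      subst hta
      refine ⟨fun _ => 0, fun x => isHomogeneous_zero _ _ _, ?_, ?_⟩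
      · intro x hx
        rw [ha] at hx
        rw [mem_singleton.1 hx, ha]
        simp [lam, hdiag, bb_zero_right]
      · rw [ha]
        simp [lam, hdiag, ff_zero_left]
    · have h2' : T.card = 2 := by
        have : 0 < T.card := card_pos.2 ⟨t, htT⟩
        omega
      have : ∃ x, x ≠ t ∧ T = {t, x} := by
        obtain ⟨a, b, hab, hT'⟩ := card_eq_two.1 h2'
        rw [hT'] at htT
        rcases mem_insert.1 htT with h | h
        · exact ⟨b, by rw [h]; exact hab.symm, by rw [hT', h]⟩
        · rw [mem_singleton] at h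
          exact ⟨a, by rw [h]; exact hab, by rw [hT', h, pair_comm]⟩
      obtain ⟨x, hxt, hTx⟩ := this
      have hnot : t ∉ ({x} : Finset σ) := by simp [hxt.symm]
      refine ⟨fun z => if z = t then ff (C (I t x) * X x) (X t) else 0, ?_, ?_, ?_⟩
      · intro z
        by_cases hz : z = t
        · simp only [hz, if_true]
          exact isHomogeneous_ff (isHomogeneous_C_mul_X _ _) (isHomogeneous_X _ _)
        · simp only [hz, if_false]
          exact isHomogeneous_zero _ _ _
      · intro z hz
        rw [hTx] at hz ⊢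
        rw [sum_insert hnot, sum_singleton]
        rcases mem_insert.1 hz with h | h
        · subst h
          have hl : lam I {z, x} z = C (I z x) * X x := by
            unfold lam
            rw [sum_insert hnot, sum_singleton, hdiag]
            simp
          rw [hl, hdiag]
          simp only [map_zero, zero_mul, zero_add, if_true, hxt, if_false, add_zero]
          rw [mul_ff_left]
        · rw [mem_singleton] at h
          subst h
          have hl : lam I {t, z} z = C (I z t) * X t := by
            unfold lam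
            rw [sum_insert hnot, sum_singleton, hdiag]
            simp
          rw [hl, hdiag, hsymm t z]
          simp only [map_zero, zero_mul, add_zero, if_true, hxt, if_false, zero_add]
          rcases zmod_two_cases (I z t) with h | h
          · simp [h, bb_zero_right]
          · rw [h]
            simp only [map_one, one_mul]
            rw [mul_ff_right]
      · rw [hTx]
        have hl : lam I {t, x} t = C (I t x) * X x := by
          unfold lam
          rw [sum_insert hnot, sum_singleton, hdiag]
          simp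
        rw [hl]
        simp

end

end Pool.Agent.H38.KZ
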