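import Mathlib
import Pool.Agent.H38.KZ.Graph

/-!
# Closest irreducible polynomials over a complete discretely valued field
-/

namespace Pool.Agent.H38.KZ

open Polynomial Finset

noncomputable section

section norms

variable {L : Type*} [NontriviallyNormedField L] [IsUltrametricDist L] [CompleteSpace L]

/-- The extension of the norm to the algebraic closure as a monoid homomorphism. -/
def nu (L : Type*) [NontriviallyNormedField L] [IsUltrametricDist L] [CompleteSpace L] :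
    AlgebraicClosure L →* ℝ where
  toFun := spectralNorm L (AlgebraicClosure L)
  map_one' := (spectralMulAlgNorm L (AlgebraicClosure L)).map_one'
  map_mul' := (spectralMulAlgNorm L (AlgebraicClosure L)).map_mul'

theorem nu_extends (a : L) : nu L (algebraMap L (AlgebraicClosure L) a) = ‖a‖ :=
  spectralNorm_extends a

theorem nu_nonneg (a : AlgebraicClosure L) : 0 ≤ nu L a := spectralNorm_nonneg a

theorem nu_pos {a : AlgebraicClosure L} (ha : a ≠ 0) : 0 < nu L a :=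
  spectralNorm_zero_lt ha (Algebra.IsAlgebraic.isAlgebraic a)

theorem nu_add_le (a b : AlgebraicClosure L) : nu L (a + b) ≤ max (nu L a) (nu L b) :=
  isNonarchimedean_spectralNorm a b

theorem nu_neg (a : AlgebraicClosure L) : nu L (-a) = nu L a :=
  spectralNorm_neg (Algebra.IsAlgebraic.isAlgebraic a)

theorem nu_conj (σ : Gal(AlgebraicClosure L/L)) (a : AlgebraicClosure L) :
    nu L (σ a) = nu L a := (spectralNorm_eq_of_equiv σ a).symm

theorem nu_sub_comm (a b : AlgebraicClosure L) : nu L (a - b) = nu L (b - a) := by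
  rw [← nu_neg, neg_sub]

theorem nu_sub_le (a b c : AlgebraicClosure L) :
    nu L (a - c) ≤ max (nu L (a - b)) (nu L (b - c)) := by
  have := nu_add_le (a - b) (b - c)
  simpa using this

/-- The norm of a resultant in terms of a root. -/
theorem norm_resultant {ρ : L[X]} (hm : ρ.Monic) (hirr : Irreducible ρ) (h : L[X])
    {a : AlgebraicClosure L} (ha : aeval a ρ = 0) :
    ‖resultant ρ h‖ = nu L (aeval a h) ^ ρ.natDegree := by
  have hmin : minpoly L a = ρ := (minpoly.eq_of_irreducible_of_monic hirr ha hm).symm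
  have hinj := (algebraMap L (AlgebraicClosure L)).injective
  have h1 := resultant_map_map ρ h ρ.natDegree h.natDegree (algebraMap L (AlgebraicClosure L))
  have h2 := resultant_eq_prod_eval (ρ.map (algebraMap L (AlgebraicClosure L)))
    (h.map (algebraMap L (AlgebraicClosure L))) h.natDegree natDegree_map_le
    (IsAlgClosed.splits _)
  rw [natDegree_map] at h2
  rw [h2, (hm.map _).leadingCoeff, one_pow, one_mul] at h1
  rw [← nu_extends, ← h1, map_multiset_prod, Multiset.map_map]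
  have h3 : ∀ b ∈ (ρ.map (algebraMap L (AlgebraicClosure L))).roots,
      (nu L ∘ (h.map (algebraMap L (AlgebraicClosure L))).eval) b = nu L (aeval a h) := by
    intro b hb
    have hb' : aeval b ρ = 0 := by
      have := isRoot_of_mem_roots hb
      rwa [IsRoot, eval_map_algebraMap] at this
    obtain ⟨σ, hσ⟩ := minpoly.exists_algEquiv_of_root' (K := L)
      (Algebra.IsAlgebraic.isAlgebraic a) (x := b) (by rw [hmin]; exact hb')
    simp only [Function.comp_apply, eval_map_algebraMap]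
    rw [← hσ, ← nu_conj σ (aeval a h)]
    congr 1
    exact (aeval_algHom_apply σ.toAlgHom a h)
  rw [Multiset.map_congr rfl h3, Multiset.map_const', Multiset.prod_replicate]
  congr 1
  rw [IsAlgClosed.card_roots_eq_natDegree, natDegree_map]

/-- In a finite set of monic irreducible polynomials there are two which see all others in
the same way. -/
theorem exists_closest (R : Finset L[X]) (hm : ∀ ρ ∈ R, ρ.Monic) (hirr : ∀ ρ ∈ R, Irreducible ρ)
    (hR : 2 ≤ R.card) :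
    ∃ ρ₁ ∈ R, ∃ ρ₂ ∈ R, ρ₁ ≠ ρ₂ ∧ ∀ ρ ∈ R, ρ ≠ ρ₁ → ρ ≠ ρ₂ →
      ‖resultant ρ₁ ρ‖ ^ ρ₂.natDegree = ‖resultant ρ₂ ρ‖ ^ ρ₁.natDegree := by
  classical
  set rts : L[X] → Finset (AlgebraicClosure L) := fun ρ => (ρ.aroots (AlgebraicClosure L)).toFinset
    with hrts
  have hmem : ∀ ρ ∈ R, ∀ a, a ∈ rts ρ ↔ aeval a ρ = 0 := by
    intro ρ hρ a
    simp only [hrts, Multiset.mem_toFinset, mem_aroots]
    exact and_iff_right (hm ρ hρ).ne_zero
  have hne : ∀ ρ ∈ R, (rts ρ).Nonempty := by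
    intro ρ hρ
    obtain ⟨a, ha⟩ := IsAlgClosed.exists_aeval_eq_zero (AlgebraicClosure L) ρ
      (degree_pos_of_irreducible (hirr ρ hρ)).ne'
    exact ⟨a, (hmem ρ hρ a).2 ha⟩
  -- all pairs of roots of different polynomials
  set P : Finset ((L[X] × L[X]) × (AlgebraicClosure L × AlgebraicClosure L)) :=
    R.offDiag.biUnion (fun q => ((rts q.1) ×ˢ (rts q.2)).image (fun ab => (q, ab))) with hP
  have hPmem : ∀ ρ₁ ∈ R, ∀ ρ₂ ∈ R, ρ₁ ≠ ρ₂ → ∀ a b, aeval a ρ₁ = 0 → aeval b ρ₂ = 0 →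
      ((ρ₁, ρ₂), (a, b)) ∈ P := by
    intro ρ₁ h1 ρ₂ h2 h12 a b ha hb
    simp only [hP, mem_biUnion, mem_image]
    exact ⟨(ρ₁, ρ₂), by simp [mem_offDiag, h1, h2, h12], (a, b),
      by simp [(hmem ρ₁ h1 a).2 ha, (hmem ρ₂ h2 b).2 hb], rfl⟩
  have hPmem' : ∀ q ∈ P, q.1.1 ∈ R ∧ q.1.2 ∈ R ∧ q.1.1 ≠ q.1.2 ∧ aeval q.2.1 q.1.1 = 0 ∧
      aeval q.2.2 q.1.2 = 0 := by
    intro q hq
    simp only [hP, mem_biUnion, mem_image] at hq
    obtain ⟨p, hp, ab, hab, rfl⟩ := hq
    rw [mem_offDiag] at hp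
    rw [mem_product] at hab
    exact ⟨hp.1, hp.2.1, hp.2.2, (hmem _ hp.1 _).1 hab.1, (hmem _ hp.2.1 _).1 hab.2⟩
  have hPne : P.Nonempty := by
    obtain ⟨ρ₁, h1, ρ₂, h2, h12⟩ := one_lt_card.1 hR
    obtain ⟨a, ha⟩ := hne ρ₁ h1
    obtain ⟨b, hb⟩ := hne ρ₂ h2
    exact ⟨_, hPmem ρ₁ h1 ρ₂ h2 h12 a b ((hmem _ h1 _).1 ha) ((hmem _ h2 _).1 hb)⟩
  obtain ⟨q, hq, hmin⟩ := exists_min_image P (fun q => nu L (q.2.1 - q.2.2)) hPne
  obtain ⟨⟨ρ₁, ρ₂⟩, ⟨a₁, a₂⟩⟩ := q
  obtain ⟨h1, h2, h12, ha₁, ha₂⟩ := hPmem' _ hq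
  simp only at h1 h2 h12 ha₁ ha₂
  refine ⟨ρ₁, h1, ρ₂, h2, h12, ?_⟩
  intro ρ hρ hρ1 hρ2
  rw [norm_resultant (hm ρ₁ h1) (hirr ρ₁ h1) ρ ha₁, norm_resultant (hm ρ₂ h2) (hirr ρ₂ h2) ρ ha₂,
    ← pow_mul, ← pow_mul, mul_comm ρ₂.natDegree]
  congr 1
  have hs : (ρ.map (algebraMap L (AlgebraicClosure L))).Splits := IsAlgClosed.splits _
  rw [hs.aeval_eq_prod_aroots_of_monic (hm ρ hρ), hs.aeval_eq_prod_aroots_of_monic (hm ρ hρ),
    map_multiset_prod, map_multiset_prod, Multiset.map_map, Multiset.map_map]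
  congr 1
  apply Multiset.map_congr rfl
  intro c hc
  have hc' : aeval c ρ = 0 := (mem_aroots.1 hc).2
  simp only [Function.comp_apply]
  have m1 : nu L (a₁ - a₂) ≤ nu L (a₁ - c) :=
    hmin ((ρ₁, ρ), (a₁, c)) (hPmem ρ₁ h1 ρ hρ hρ1.symm a₁ c ha₁ hc')
  have m2 : nu L (a₁ - a₂) ≤ nu L (a₂ - c) :=
    hmin ((ρ₂, ρ), (a₂, c)) (hPmem ρ₂ h2 ρ hρ hρ2.symm a₂ c ha₂ hc')
  apply le_antisymm
  · exact (nu_sub_le a₁ a₂ c).trans (max_le m2 le_rfl)
  · refine (nu_sub_le a₂ a₁ c).trans (max_le ?_ le_rfl)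
    rw [nu_sub_comm a₂ a₁]
    exact m1

/-- A normalised discrete order function for the norm of `L`. -/
structure IsOrd (L : Type*) [NormedField L] (ord : L → ℤ) (q : ℝ) : Prop where
  one_lt : 1 < q
  norm_eq : ∀ a : L, a ≠ 0 → ‖a‖ = q ^ (-(ord a))

namespace IsOrd

variable {M : Type*} [NormedField M] {ord : M → ℤ} {q : ℝ}

theorem inj (_h : IsOrd M ord q) {a b : ℤ} (hab : q ^ a = q ^ b) : a = b := by
  have h1 := _h.one_lt
  exact zpow_right_injective₀ (by linarith) h1.ne' hab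

theorem mul (h : IsOrd M ord q) {a b : M} (ha : a ≠ 0) (hb : b ≠ 0) :
    ord (a * b) = ord a + ord b := by
  have h0 : q ≠ 0 := by have := h.one_lt; linarith
  have h1 := h.norm_eq _ (mul_ne_zero ha hb)
  rw [norm_mul, h.norm_eq _ ha, h.norm_eq _ hb, ← zpow_add₀ h0] at h1
  have := h.inj h1
  linarith

theorem one (h : IsOrd M ord q) : ord 1 = 0 := by
  have := h.mul (one_ne_zero (α := M)) one_ne_zero
  rw [mul_one] at this
  linarith

theorem neg (h : IsOrd M ord q) (a : M) : a ≠ 0 → ord (-a) = ord a := by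
  intro ha
  have h1 := h.norm_eq _ (neg_ne_zero.2 ha)
  rw [norm_neg, h.norm_eq _ ha] at h1
  have := h.inj h1
  linarith

theorem pow (h : IsOrd M ord q) {a : M} (ha : a ≠ 0) (n : ℕ) : ord (a ^ n) = n * ord a := by
  induction n with
  | zero => simp [h.one]
  | succ n ih => rw [pow_succ, h.mul (pow_ne_zero _ ha) ha, ih]; push_cast; ring

theorem prod (h : IsOrd M ord q) {ι : Type*} (s : Finset ι) (f : ι → M)
    (hf : ∀ i ∈ s, f i ≠ 0) : ord (∏ i ∈ s, f i) = ∑ i ∈ s, ord (f i) := by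
  classical
  induction s using Finset.induction_on with
  | empty => simp [h.one]
  | insert a s ha ih =>
    rw [prod_insert ha, sum_insert ha, h.mul (hf a (mem_insert_self _ _))
      (prod_ne_zero_iff.2 (fun i hi => hf i (mem_insert_of_mem hi))),
      ih (fun i hi => hf i (mem_insert_of_mem hi))]

end IsOrd

/-- Intersection numbers modulo two; `none` stands for the uniformiser of the base. -/
def inter {L : Type*} [Field L] (ord : L → ℤ) : Option L[X] → Option L[X] → ZMod 2 := by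
  classical
  exact fun x y => match x, y with
  | none, none => 0
  | none, some ρ => (ρ.natDegree : ZMod 2)
  | some ρ, none => (ρ.natDegree : ZMod 2)
  | some ρ, some ρ' => if ρ = ρ' then 0 else ((ord (resultant ρ ρ') : ℤ) : ZMod 2)

section inter

variable {M : Type*} [Field M] (ord : M → ℤ)

theorem inter_none_none : inter ord none none = 0 := rfl
theorem inter_none_some (ρ : M[X]) : inter ord none (some ρ) = (ρ.natDegree : ZMod 2) := rfl
theorem inter_some_none (ρ : M[X]) : inter ord (some ρ) none = (ρ.natDegree : ZMod 2) := rfl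
theorem inter_some_some {ρ ρ' : M[X]} (h : ρ ≠ ρ') :
    inter ord (some ρ) (some ρ') = ((ord (resultant ρ ρ') : ℤ) : ZMod 2) := by
  simp [inter, h]
theorem inter_self (x : Option M[X]) : inter ord x x = 0 := by
  cases x <;> simp [inter]

end inter

theorem inter_comm {M : Type*} [NormedField M] {ord : M → ℤ} {q : ℝ} (h : IsOrd M ord q)
    (x y : Option M[X]) : inter ord x y = inter ord y x := by
  cases x with
  | none => cases y <;> rfl
  | some ρ => cases y with
    | none => rfl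
    | some ρ' =>
      by_cases hρ : ρ = ρ'
      · rw [hρ]
      · rw [inter_some_some ord hρ, inter_some_some ord (Ne.symm hρ), resultant_comm]
        by_cases h0 : resultant ρ' ρ = 0
        · rw [h0, mul_zero]
        · rcases neg_one_pow_eq_or M (ρ.natDegree * ρ'.natDegree) with h1 | h1
          · rw [h1, one_mul]
          · rw [h1, neg_one_mul, h.neg _ h0]

/-- The parity dichotomy. -/
theorem parity {n₁ n₂ : ℕ} (h₁ : n₁ ≠ 0) (h₂ : n₂ ≠ 0) :
    ((∀ i₁ i₂ : ℤ, (n₂ : ℤ) * i₁ = n₁ * i₂ → ((i₁ : ZMod 2) = i₂)) ∧ (n₁ : ZMod 2) = n₂) ∨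
    ((∀ i₁ i₂ : ℤ, (n₂ : ℤ) * i₁ = n₁ * i₂ → ((i₁ : ZMod 2) = 0)) ∧ (n₁ : ZMod 2) = 0) ∨
    ((∀ i₁ i₂ : ℤ, (n₂ : ℤ) * i₁ = n₁ * i₂ → ((i₂ : ZMod 2) = 0)) ∧ (n₂ : ZMod 2) = 0) := by
  obtain ⟨a, m₁, hm₁, rfl⟩ := Nat.exists_eq_two_pow_mul_odd h₁
  obtain ⟨b, m₂, hm₂, rfl⟩ := Nat.exists_eq_two_pow_mul_odd h₂
  have e2 : (2 : ZMod 2) = 0 := rfl
  have o₁ : (m₁ : ZMod 2) = 1 := by
    obtain ⟨c, rfl⟩ := hm₁
    push_cast; rw [e2]; ring
  have o₂ : (m₂ : ZMod 2) = 1 := by
    obtain ⟨c, rfl⟩ := hm₂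
    push_cast; rw [e2]; ring
  rcases lt_trichotomy a b with hab | hab | hab
  · right; right
    obtain ⟨c, rfl⟩ := Nat.exists_eq_add_of_lt hab
    constructor
    · intro i₁ i₂ h
      have h' : (2 ^ (c + 1) * m₂ : ℤ) * i₁ = m₁ * i₂ := by
        have h0 : (2 ^ a : ℤ) ≠ 0 := by positivity
        apply mul_left_cancel₀ h0
        push_cast at h
        rw [pow_add, pow_add] at h
        rw [pow_add]
        linear_combination h
      have h'' := congrArg (Int.cast : ℤ → ZMod 2) h'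
      push_cast at h''
      rw [e2, o₁, o₂, pow_succ] at h''
      simpa using h''.symm
    · push_cast
      rw [e2, pow_add, pow_add]
      simp
  · left
    subst hab
    constructor
    · intro i₁ i₂ h
      have h' : (m₂ : ℤ) * i₁ = m₁ * i₂ := by
        have h0 : (2 ^ a : ℤ) ≠ 0 := by positivity
        apply mul_left_cancel₀ h0
        push_cast at h
        linear_combination h
      have h'' := congrArg (Int.cast : ℤ → ZMod 2) h'
      push_cast at h''
      rw [o₁, o₂] at h''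
      simpa using h''
    · push_cast
      rw [o₁, o₂]
  · right; left
    obtain ⟨c, rfl⟩ := Nat.exists_eq_add_of_lt hab
    constructor
    · intro i₁ i₂ h
      have h' : (m₂ : ℤ) * i₁ = (2 ^ (c + 1) * m₁ : ℤ) * i₂ := by
        have h0 : (2 ^ b : ℤ) ≠ 0 := by positivity
        apply mul_left_cancel₀ h0
        push_cast at h
        rw [pow_add, pow_add] at h
        rw [pow_add]
        linear_combination h
      have h'' := congrArg (Int.cast : ℤ → ZMod 2) h'
      push_cast at h''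
      rw [e2, o₁, o₂, pow_succ] at h''
      simpa using h''
    · push_cast
      rw [e2, pow_add, pow_add]
      simp

/-- The intersection graph of a finite set of monic irreducible polynomials is reducible. -/
theorem reducible_inter {ord : L → ℤ} {q : ℝ} (h : IsOrd L ord q) (R : Finset L[X])
    (hm : ∀ ρ ∈ R, ρ.Monic) (hirr : ∀ ρ ∈ R, Irreducible ρ) :
    Reducible (inter ord) none (insertNone R) := by
  classical
  intro T hT htT hc
  have hsub : eraseNone T ⊆ R := by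
    intro ρ hρ
    have := hT (mem_eraseNone.1 hρ)
    simpa using this
  have hcard : 2 ≤ (eraseNone T).card := by
    have h1 : insertNone (eraseNone T) = T := by
      rw [insertNone_eraseNone, insert_eq_of_mem htT]
    have h2 : T.card = (eraseNone T).card + 1 := by
      conv_lhs => rw [← h1]
      exact card_insertNone _
    omega
  obtain ⟨ρ₁, h1, ρ₂, h2, h12, hcl⟩ := exists_closest (eraseNone T)
    (fun ρ hρ => hm ρ (hsub hρ)) (fun ρ hρ => hirr ρ (hsub hρ)) hcard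
  have hd1 : ρ₁.natDegree ≠ 0 := (Irreducible.natDegree_pos (hirr _ (hsub h1))).ne'
  have hd2 : ρ₂.natDegree ≠ 0 := (Irreducible.natDegree_pos (hirr _ (hsub h2))).ne'
  have hres : ∀ ρ ∈ R, ∀ ρ' ∈ R, ρ ≠ ρ' → resultant ρ ρ' ≠ 0 := by
    intro ρ hρ ρ' hρ' hne
    apply resultant_ne_zero
    rw [(hirr ρ hρ).coprime_iff_not_dvd]
    intro hdvd
    apply hne
    exact eq_of_monic_of_associated (hm ρ hρ) (hm ρ' hρ')
      ((hirr ρ hρ).associated_of_dvd (hirr ρ' hρ') hdvd)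
  have hI : ∀ ρ ∈ eraseNone T, ρ ≠ ρ₁ → ρ ≠ ρ₂ →
      (ρ₂.natDegree : ℤ) * ord (resultant ρ₁ ρ) = ρ₁.natDegree * ord (resultant ρ₂ ρ) := by
    intro ρ hρ hρ1 hρ2
    have h3 := hcl ρ hρ hρ1 hρ2
    rw [h.norm_eq _ (hres ρ₁ (hsub h1) ρ (hsub hρ) hρ1.symm),
      h.norm_eq _ (hres ρ₂ (hsub h2) ρ (hsub hρ) hρ2.symm), ← zpow_natCast, ← zpow_natCast,
      ← zpow_mul, ← zpow_mul] at h3
    have := h.inj h3
    linarith
  have key : ∀ z ∈ T, z ≠ some ρ₁ → z ≠ some ρ₂ → ∃ i₁ i₂ : ℤ,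
      (ρ₂.natDegree : ℤ) * i₁ = ρ₁.natDegree * i₂ ∧ inter ord (some ρ₁) z = (i₁ : ZMod 2) ∧
      inter ord (some ρ₂) z = (i₂ : ZMod 2) := by
    intro z hz hz1 hz2
    cases z with
    | none =>
      refine ⟨ρ₁.natDegree, ρ₂.natDegree, by ring, ?_, ?_⟩
      · rw [inter_some_none]; simp
      · rw [inter_some_none]; simp
    | some ρ =>
      have hρ : ρ ∈ eraseNone T := mem_eraseNone.2 hz
      have hρ1 : ρ ≠ ρ₁ := fun h => hz1 (by rw [h])
      have hρ2 : ρ ≠ ρ₂ := fun h => hz2 (by rw [h])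
      exact ⟨_, _, hI ρ hρ hρ1 hρ2, inter_some_some ord hρ1.symm, inter_some_some ord hρ2.symm⟩
  rcases parity hd1 hd2 with hp | hp | hp
  · refine ⟨some ρ₁, mem_eraseNone.1 h1, some ρ₂, mem_eraseNone.1 h2, by simp, by simp,
      by simpa using h12, Or.inl ?_⟩
    intro z hz hz1 hz2
    obtain ⟨i₁, i₂, hi, e1, e2⟩ := key z hz hz1 hz2
    rw [e1, e2]
    exact hp.1 i₁ i₂ hi
  · refine ⟨some ρ₁, mem_eraseNone.1 h1, some ρ₂, mem_eraseNone.1 h2, by simp, by simp,
      by simpa using h12, Or.inr ?_⟩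
    intro z hz hz1 hz2
    obtain ⟨i₁, i₂, hi, e1, e2⟩ := key z hz hz1 hz2
    rw [e1]
    exact hp.1 i₁ i₂ hi
  · refine ⟨some ρ₂, mem_eraseNone.1 h2, some ρ₁, mem_eraseNone.1 h1, by simp, by simp,
      by simpa using h12.symm, Or.inr ?_⟩
    intro z hz hz2 hz1
    obtain ⟨i₁, i₂, hi, e1, e2⟩ := key z hz hz1 hz2
    rw [e2]
    exact hp.1 i₁ i₂ hi

end norms

end

end Pool.Agent.H38.KZ
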